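import Pool.Agent.NPG.Stmts
import Pool.Agent.Helper62_LSG.TVS

/-!
# NPG, row LGR: metrizable groups with a closed line are l-stable and S-stable
-/

set_option autoImplicit false

open MeasureTheory Set Topology
open scoped BigOperators Pointwise

namespace Pool.Agent.NPG.H49

open Pool.Agent.LSG Pool.Agent.NPG

theorem lgr (hR : RxsStmt) (hF0 : FglStmt) (hC : CpeStmt) (hB : BriStmt) : LgrStmt := by
  intro H _ _ _ _ γ hγ hadd
  obtain ⟨F, hF, hFx⟩ := hF0 H γ hγ hadd
  have hγc : Continuous γ := hγ.continuous
  have hγ0 : γ 0 = 1 := by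
    have h1 := hadd 0 0
    rw [add_zero] at h1
    exact (left_eq_mul.mp h1)
  have hneg : ∀ t, γ (-t) * γ t = 1 := by
    intro t
    rw [← hadd, neg_add_cancel, hγ0]
  have hneg' : ∀ t, γ t * γ (-t) = 1 := by
    intro t
    rw [← hadd, add_neg_cancel, hγ0]
  have hFx' : ∀ v : H, F (v * γ (-F v)) = 0 := by
    intro v
    rw [hFx]
    ring
  let h : H ≃ₜ {v : H // F v = 0} × ℝ :=
    { toFun := fun v => (⟨v * γ (-F v), hFx' v⟩, F v)
      invFun := fun p => (p.1 : H) * γ p.2
      left_inv := fun v => by
        change v * γ (-F v) * γ (F v) = v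
        rw [mul_assoc, hneg, mul_one]
      right_inv := fun p => by
        obtain ⟨⟨v, hv⟩, t⟩ := p
        have h1 : F (v * γ t) = t := by rw [hFx, hv, zero_add]
        apply Prod.ext
        · apply Subtype.ext
          change v * γ t * γ (-F (v * γ t)) = v
          rw [h1, mul_assoc, hneg', mul_one]
        · exact h1
      continuous_toFun := by
        refine Continuous.prodMk (Continuous.subtype_mk ?_ _) hF
        exact continuous_id.mul (hγc.comp hF.neg)
      continuous_invFun := by
        exact (continuous_subtype_val.comp continuous_fst).mul (hγc.comp continuous_snd) }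
  obtain ⟨r1, r2⟩ := hR {v : H // F v = 0}
  exact ⟨Pool.Agent.LSG.H62.lstable hC hB h r1, Pool.Agent.LSG.H62.sstable hC hB h r2⟩

end Pool.Agent.NPG.H49
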